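import Pool.Agent.Helper53.AC.Fin

/-!
# Frey's inequality for almost all hyperelliptic curves ordered by weights, and in all fibres

Frey's conjecture: `h_F(A) ≤ (g / 2 + ε) log N_A + c(ε, g)` for all abelian varieties `A` over `ℚ` of dimension
`g`; `h_F` is the stable Faltings height and `N_A` is the conductor.

Let `g ≥ 1` and `n = 2 g + 1` or `n = 2 g + 2`. We consider all hyperelliptic curves `y ^ 2 = f(x)` of genus `g`,
`f = a_n x ^ n + ⋯ + a_1 x + a_0` with integer coefficients, in the boxes `|a_i| ≤ L X ^ (n - i)`. The main case
is `L = 1`: the leading coefficient is `± 1` and the other coefficients are ordered by their weights (for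
`n = 2 g + 1` and `a_{n - 1} = 0` this is the usual order of the hyperelliptic curves with a rational Weierstrass
point). In this case we obtain a slope which is SMALLER than the slope of the conjecture. All results hold in
every single fibre in which only `a_1` and `a_0` vary, uniformly.

(The case `X = 1`, in which the curves are ordered by the maximum of the coefficients, and `κ > g / 2` is, on
average over `a_2, …, a_n`, contained in results of the library over number fields, `MP_6babc4_nt`; the case
of a fixed `a_2, …, a_n` is not.)

Two explicit numbers are attached to `f`: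

* `period g f`, the integral over `ℂ ^ g` of `∏_{j < k} |x_j - x_k| ^ 2 / ∏_k |f(x_k)|`. Up to a constant
  which depends only on `g` it is the square of the norm of the differential form
  `(dx / y) ∧ (x dx / y) ∧ ⋯ ∧ (x ^ (g - 1) dx / y)` on the Jacobian (pull it back to the `g`-th power of the curve;
  the determinant of Vandermonde). So `-(1 / 2) log (period g f)` is the height of the Jacobian defined by the
  forms of the Weierstrass model. `HeightLe g f h` says that it is at most `h`.
* `weakProd f`, the product of the weak primes, `Weak f p`: the odd primes `p` which do not divide the leading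
  coefficient, such that `f` modulo `p` has over an algebraic closure of `𝔽_p` exactly one multiple root, and
  this is a double root. These are primes at which the Weierstrass model has exactly one singular point, a node.

Let `κ > g / 2` (that is the slope of Frey's conjecture), or `L = 1` and only
`κ > (n g - g ^ 2 - g) / (2 n)` (that is `g ^ 2 / (4 g + 2)` for `n = 2 g + 1` and `g / 4` for `n = 2 g + 2`).
We prove, without hypotheses, that there is a `δ > 0` such that, for EVERY choice of the coefficients
`a_2, …, a_n`, for all pairs `(a_1, a_0)` in the box with `O((L X ^ (n - 1)) (L X ^ n) ^ (1 - δ))` exceptions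

`-(1 / 2) log (period g f) ≤ κ log (weakProd f) + c`.

Consequently, for these `f`, Frey's inequality with the slope `κ`

`h_F(A) ≤ κ log N_A + (1 / 2) log d + c + c₀(g)`

is true for ALL abelian varieties `A` over `ℚ` which over an algebraic closure of `ℚ` are isogenous to the
Jacobian `J(f)`, with an isogeny of degree `d`. In particular (`d = 1`) it is true for `J(f)` and all its
twists. The constant `c` is arbitrary, and the constants `δ` and `C` depend only on `g`, `κ`, `c` (they are
uniform in `a_2, …, a_n`, `L` and `X`). The translation uses two standard facts (`IsTheory`), for `f` of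
degree `n` without multiple roots:

* `height`. `h_F(J(f)) ≤ -(1 / 2) log (period g f) + c₀`: up to a power of `2` the form above generates a
  lattice which contains the integral forms of the Néron model at all primes, over all number fields (the
  dualising sheaf of the Weierstrass model). An isogeny of degree `d` changes the stable height by at most
  `(1 / 2) log d` (Faltings).
* `bad`. At a weak prime `p` the toric rank of the Jacobian is one, no abelian variety which is geometrically
  isogenous to it has good reduction at `p`, and `p` divides the conductor.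
-/

set_option autoImplicit false

open Polynomial Pool.Agent.Helper53.AC
open scoped ENNReal

namespace Pool.Agent.Results.MP_c59389_nt.AllHyperellipticCurves

/-- The abelian varieties `A : AV` over `ℚ` with their stable Faltings heights `hF A` and conductors `N A`.
`Isog f d A` says that over an algebraic closure of `ℚ` there is an isogeny of degree `d` between `A` and the
Jacobian of `y ^ 2 = f(x)`. See the explanations above. -/
structure IsTheory (g n : ℕ) {AV : Type} (hF : AV → ℝ) (N : AV → ℕ)
    (Isog : ℤ[X] → ℕ → AV → Prop) (c₀ : ℝ) : Prop where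
  pos : ∀ A, 0 < N A
  height : ∀ f d A h, f.natDegree = n → (f.map (Int.castRingHom ℚ)).Separable → Isog f d A →
    HeightLe g f h → hF A ≤ h + 1 / 2 * Real.log d + c₀
  bad : ∀ f d A, f.natDegree = n → (f.map (Int.castRingHom ℚ)).Separable → Isog f d A →
    ∀ p, Weak f p → p ∣ N A

/-- **Frey's inequality for almost all hyperelliptic curves.** `fib G q` is the polynomial
`G + q.1 x + q.2`. See the explanations above. -/
theorem result {g n : ℕ} (hg : 1 ≤ g) (hn : n = 2 * g + 1 ∨ n = 2 * g + 2) (κ c : ℝ)
    (hκ : ((n : ℝ) * g - g ^ 2 - g) / (2 * n) < κ) :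
    ∃ δ : ℝ, 0 < δ ∧ ∃ C₁ : ℝ, ∀ L X : ℕ, 1 ≤ L → 1 ≤ X → (L = 1 ∨ (g : ℝ) / 2 < κ) →
      ∀ G : ℤ[X], G.natDegree = n → (∀ i, |G.coeff i| ≤ L * (X : ℤ) ^ (n - i)) →
      ∃ Exc : Finset (ℤ × ℤ),
        (Exc.card : ℝ) ≤ C₁ * (L * (X : ℝ) ^ (n - 1)) * (L * (X : ℝ) ^ n) ^ (1 - δ) ∧
        ∀ q : ℤ × ℤ, q ∉ Exc → |q.1| ≤ L * (X : ℤ) ^ (n - 1) → |q.2| ≤ L * (X : ℤ) ^ n →
          ((fib G q).map (Int.castRingHom ℚ)).Separable →
            -- the explicit inequality
            HeightLe g (fib G q) (κ * Real.log (weakProd (fib G q)) + c) ∧
            -- Frey's inequality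
            ∀ {AV : Type} {hF : AV → ℝ} {N : AV → ℕ} {Isog : ℤ[X] → ℕ → AV → Prop} {c₀ : ℝ},
              IsTheory g n hF N Isog c₀ → ∀ d A, Isog (fib G q) d A →
                hF A ≤ κ * Real.log (N A) + 1 / 2 * Real.log d + (c + c₀) := by
  have hκ0 : 0 < κ := by
    refine lt_of_le_of_lt (div_nonneg ?_ (by positivity)) hκ
    have h1 : (2 * g + 1 : ℝ) ≤ n := by
      have : 2 * g + 1 ≤ n := by omega
      exact_mod_cast this
    have h2 : (1 : ℝ) ≤ g := by exact_mod_cast hg
    nlinarith
  obtain ⟨δ, hδ, C₁, hC₁⟩ := all_but_few (c := c) hg hn hκ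
  refine ⟨δ, hδ, C₁, fun L X hL hX hcase G hG hcoef => ?_⟩
  obtain ⟨E, hE, h⟩ := hC₁ L X hL hX hcase G hG hcoef
  refine ⟨E, hE, fun q hq h1 h2 h3 => ⟨h q hq h1 h2 h3, fun {AV hF N Isog c₀} hT d A hA => ?_⟩⟩
  have hdeg : (fib G q).natDegree = n := natDegree_fib (by omega) hG q
  have hfin := weak_finite (by omega) hdeg h3
  have h4 := hT.height _ d A _ hdeg h3 hA (h q hq h1 h2 h3)
  have h5 := Nat.le_of_dvd (hT.pos A) (weakProd_dvd hfin (hT.bad _ d A hdeg h3 hA))
  have h6 : Real.log (weakProd (fib G q)) ≤ Real.log (N A) := by
    refine Real.log_le_log ?_ (by exact_mod_cast h5)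
    exact_mod_cast weakProd_pos hfin
  have h7 := mul_le_mul_of_nonneg_left h6 hκ0.le
  linarith

end Pool.Agent.Results.MP_c59389_nt.AllHyperellipticCurves
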