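import Pool.Agent.Helper53.FJ.Fin

/-!
# Frey's inequality for almost all Jacobians of hyperelliptic curves with rational Weierstrass points

Frey's conjecture: `h_F(A) ≤ (g / 2 + ε) log N_A + c(ε, g)` for all abelian varieties `A` over `ℚ` of dimension
`g`; `h_F` is the stable Faltings height and `N_A` is the conductor.

Let `g ≥ 1` and `n = 2 g + 1` or `n = 2 g + 2`. For pairwise different integers `a_1, …, a_n` let `J(a)` be the
Jacobian of the hyperelliptic curve `y ^ 2 = (x - a_1) ⋯ (x - a_n)` of genus `g`. Two explicit numbers are
attached to `a`: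

* `period g a`, the integral over `ℂ ^ g` of `∏_{j < k} |x_j - x_k| ^ 2 / ∏_k |f(x_k)|`,
  `f = (x - a_1) ⋯ (x - a_n)`. Up to a constant which depends only on `g` it is the square of the norm of the
  differential form `(dx / y) ∧ (x dx / y) ∧ ⋯ ∧ (x ^ (g - 1) dx / y)` on the Jacobian (pull it back to the `g`-th
  power of the curve; the determinant of Vandermonde). So `-(1 / 2) log (period g a)` is the height of the
  Jacobian defined by the forms of the Weierstrass model. `HeightLe g a h` says that it is at most `h`.
* `weakProd a`, the product of the weak primes, `Weak a p`: the odd primes `p` which divide exactly one of the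
  differences `a_i - a_j`, `i < j`. These are primes at which the reduction of the curve has exactly one
  singular point, a node.

(For this family Frey's inequality with some unspecified slope, and for all hyperelliptic curves in uniform
boxes with the slope `g / 2 + ε`, is in the library, over number fields, `MP_6babc4_nt`. Here the point is the
small slope.)

Let `κ > g / (4 g + 2)` (note that `g / (4 g + 2) < 1 / 4 < g / 2`). We prove, without hypotheses: for all `a`
with `|a_i| ≤ B`, except for `O(B ^ (n - δ))` of them, `δ = δ(g, κ) > 0`,

`-(1 / 2) log (period g a) ≤ κ log (weakProd a) + c`.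

Consequently, for these `a`, Frey's inequality with the slope `κ`

`h_F(A) ≤ κ log N_A + (1 / 2) log d + c + c₀(g)`

is true for ALL abelian varieties `A` over `ℚ` which over an algebraic closure of `ℚ` are isogenous to `J(a)`,
with an isogeny of degree `d`. In particular (`d = 1`) it is true for `J(a)` itself and for all its twists. The
constant `c` is arbitrary (it may be negative). The translation uses two standard facts (`IsTheory`):

* `height`. `h_F(J(a)) ≤ -(1 / 2) log (period g a) + c₀`: up to a power of `2` the form above generates a
  lattice which contains the integral forms of the Néron model at all primes, over all number fields (the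
  dualising sheaf of the Weierstrass model). An isogeny of degree `d` changes the stable height by at most
  `(1 / 2) log d` (Faltings).
* `bad`. At a weak prime `p` the toric rank of the Jacobian is one, no abelian variety which is geometrically
  isogenous to it has good reduction at `p`, and `p` divides the conductor.
-/

set_option autoImplicit false

open Finset MeasureTheory Pool.Agent.Helper53.FJ
open scoped ENNReal

namespace Pool.Agent.Results.MP_c59389_nt.HyperellipticJacobians

/-- The abelian varieties `A : AV` over `ℚ` with their stable Faltings heights `hF A` and conductors `N A`.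
`Isog a d A` says that over an algebraic closure of `ℚ` there is an isogeny of degree `d` between `A` and the
Jacobian of `y ^ 2 = ∏ (x - a i)`. See the explanations above. -/
structure IsTheory (g n : ℕ) {AV : Type} (hF : AV → ℝ) (N : AV → ℕ)
    (Isog : (Fin n → ℤ) → ℕ → AV → Prop) (c₀ : ℝ) : Prop where
  pos : ∀ A, 0 < N A
  height : ∀ a d A h, Function.Injective a → Isog a d A → HeightLe g a h →
    hF A ≤ h + 1 / 2 * Real.log d + c₀
  bad : ∀ a d A, Function.Injective a → Isog a d A → ∀ p, Weak a p → p ∣ N A

/-- **Frey's inequality for almost all Jacobians of hyperelliptic curves with rational Weierstrass points.**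
See the explanations above. -/
theorem result {g n : ℕ} (hg : 1 ≤ g) (hn : n = 2 * g + 1 ∨ n = 2 * g + 2) (κ c : ℝ)
    (hκ : (g : ℝ) / (4 * g + 2) < κ) :
    ∃ δ : ℝ, 0 < δ ∧ ∃ C : ℝ, ∀ B : ℕ, 1 ≤ B → ∃ Exc : Finset (Fin n → ℤ),
      (Exc.card : ℝ) ≤ C * (B : ℝ) ^ ((n : ℝ) - δ) ∧
      ∀ a : Fin n → ℤ, a ∉ Exc → (∀ i, |a i| ≤ B) → Function.Injective a →
        -- the explicit inequality
        HeightLe g a (κ * Real.log (weakProd a) + c) ∧
        -- Frey's inequality
        ∀ {AV : Type} {hF : AV → ℝ} {N : AV → ℕ} {Isog : (Fin n → ℤ) → ℕ → AV → Prop} {c₀ : ℝ},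
          IsTheory g n hF N Isog c₀ → ∀ d A, Isog a d A →
            hF A ≤ κ * Real.log (N A) + 1 / 2 * Real.log d + (c + c₀) := by
  have hκ0 : 0 < κ := lt_of_le_of_lt (by positivity) hκ
  obtain ⟨δ, hδ, C, hC⟩ := all_but_few (c := c) hg hn hκ
  refine ⟨δ, hδ, C, fun B hB => ?_⟩
  obtain ⟨E, hE, h⟩ := hC B hB
  refine ⟨E, hE, fun a ha h1 h2 => ⟨h a ha h1 h2, fun {AV hF N Isog c₀} hT d A hA => ?_⟩⟩
  have hfin := weak_finite h2
  have h4 := hT.height a d A _ h2 hA (h a ha h1 h2)
  have h5 := Nat.le_of_dvd (hT.pos A) (weakProd_dvd hfin (hT.bad a d A h2 hA))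
  have h6 : Real.log (weakProd a) ≤ Real.log (N A) := by
    refine Real.log_le_log ?_ (by exact_mod_cast h5)
    exact_mod_cast weakProd_pos hfin
  have h7 := mul_le_mul_of_nonneg_left h6 hκ0.le
  linarith

end Pool.Agent.Results.MP_c59389_nt.HyperellipticJacobians
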