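import Pool.Agent.Helper80.NE.Fin

/-!
# Frey's inequality needs its `ε` near every elliptic curve

Frey's inequality says that `h_F(A) ≤ (n / 2 + ε) log N_A + c` for all abelian varieties `A` over `ℚ`
of dimension `n` (stable Faltings height). We consider elliptic curves (`n = 1`). It is known (Masser)
that the term `ε` is needed: `h_F(E) - (1 / 2) log N_E` is unbounded. We show that the `ε` is needed
locally at every point of the space of all elliptic curves: whatever curves
`y² = x³ + α x + β` over `ℝ` and `y² = x³ + α_p x + β_p` over `ℚ_p`, `p` in a finite set `S` of primes,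
are given, there are for every `C` infinitely many `j`-invariants of elliptic curves
`E : y² = x³ + a x + b` over `ℚ`, with `(a, b)` as close as one likes to `(α, β)` and to `(α_p, β_p)`
for all `p` in `S`, such that `h_F(E) > (1 / 2) log N_E + C`. (There is no condition on the Galois
representations, the reduction or the torsion.)

The definitions of the Faltings height (Silverman's formula, up to an additive constant), of the
periods and of `cond E`, the part of the conductor prime to six, are those of the file
`AllInvariantsAllHeights` of the library.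

Proof. By weak approximation it suffices to treat the neighbourhoods of curves `E₀` over `ℚ`, and one
may assume that the point `Q = (c₄, c₆)` of `y² = x³ - 1728 D`, `D` the discriminant of `E₀`, has
infinite order. The library has a parametrization (`EveryModSixClass`, Hesse pencil): the multiple
`(1 + 2 m) Q` gives a curve `E` with `Δ = D ω ^ 6` which is semistable outside `6 D`, where `ω ^ 2` is the
denominator of the abscissa of `(1 + 2 m) Q`. It is close to `E₀` if `m Q` is close to the origin. If
`1 + 2 m` is divisible by `n₁ p ^ J`, `p` a prime dividing the denominator of `n₁ Q`, then `p ^ J`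
divides `ω`, which makes the conductor small. For the real topology one needs that the multiples
`m Q`, `m` in a given residue class, come close to the origin; we prove this by an elementary study of
the translations of the real curve: small translations move the ordinate in a constant direction.

The module on the height and the conductor (`FC`) is by helper91.
-/

set_option autoImplicit false

namespace Pool.Agent.Results.MP_c59389_nt.NearEveryCurve

open NumberField IsDedekindDomain
open Pool.Agent.Results.MP_c59389_nt.AllInvariantsAllHeights (cond faltings IsPeriod jInv multNorm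
  addNorm)

/-- the curve `y² = x³ + a x + b` -/
def curve (a b : ℚ) : WeierstrassCurve ℚ := { a₁ := 0, a₂ := 0, a₃ := 0, a₄ := a, a₆ := b }

theorem one_le_cond (E : WeierstrassCurve ℚ) : 1 ≤ cond E := by
  have key : ∀ (v : HeightOneSpectrum (𝓞 ℚ)), (1 : ℝ) ≤ (Ideal.absNorm v.asIdeal : ℝ) := by
    intro v
    have : Ideal.absNorm v.asIdeal ≠ 0 := by
      rw [Ne, Ideal.absNorm_eq_zero_iff]
      exact v.ne_bot
    exact_mod_cast Nat.one_le_iff_ne_zero.mpr this
  have h1 : (1 : ℝ) ≤ multNorm E := by
    unfold multNorm
    refine finprod_induction (fun x : ℝ => 1 ≤ x) le_rfl (fun x y hx hy => one_le_mul_of_one_le_of_one_le hx hy)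
      (fun v => ?_)
    exact finprod_induction (fun x : ℝ => 1 ≤ x) le_rfl
      (fun x y hx hy => one_le_mul_of_one_le_of_one_le hx hy) (fun _ => key v)
  have h2 : (1 : ℝ) ≤ addNorm E := by
    unfold addNorm
    refine finprod_induction (fun x : ℝ => 1 ≤ x) le_rfl (fun x y hx hy => one_le_mul_of_one_le_of_one_le hx hy)
      (fun v => ?_)
    exact finprod_induction (fun x : ℝ => 1 ≤ x) le_rfl
      (fun x y hx hy => one_le_mul_of_one_le_of_one_le hx hy) (fun _ => one_le_pow₀ (key v))
  exact one_le_mul_of_one_le_of_one_le h1 h2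

/-- **Frey's inequality needs its `ε` near every elliptic curve.** Let `N` be the conductor, or any
function on the elliptic curves over `ℚ` with `cond E ≤ N E ≤ 62208 cond E` (`cond E` is the part of
the conductor prime to six, the other part divides `2 ^ 8 * 3 ^ 5 = 62208`). For every finite set `S`
of primes, all `α, β` in `ℝ`, all `α' p, β' p` in `ℚ_p`, `p` in `S`, all `ε > 0` and all `C` there are
infinitely many `j`-invariants of elliptic curves `E : y² = x³ + a x + b` over `ℚ` with
`|a - α|, |b - β| < ε`, `|a - α' p|, |b - β' p| < ε` for all `p` in `S`, and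
`h_F(E) > (1 / 2) log N_E + C`. -/
theorem result (N : WeierstrassCurve ℚ → ℝ)
    (hN : ∀ E : WeierstrassCurve ℚ, E.Δ ≠ 0 → cond E ≤ N E ∧ N E ≤ 62208 * cond E)
    (S : Finset ℕ) (α β : ℝ) (α' β' : ∀ (p : ℕ) [Fact p.Prime], ℚ_[p]) (ε : ℝ) (hε : 0 < ε)
    (C : ℝ) :
    {j : ℚ | ∃ a b : ℚ, (curve a b).Δ ≠ 0 ∧ (curve a b).c₄ ^ 3 / (curve a b).Δ = j ∧
      |(a : ℝ) - α| < ε ∧ |(b : ℝ) - β| < ε ∧
      (∀ (p : ℕ) [Fact p.Prime], p ∈ S →
        ‖(a : ℚ_[p]) - α' p‖ < ε ∧ ‖(b : ℚ_[p]) - β' p‖ < ε) ∧
      ∀ τ : InfinitePlace ℚ → UpperHalfPlane, IsPeriod j τ →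
        1 / 2 * Real.log (N (curve a b)) + C < faltings j τ}.Infinite := by
  intro hfin
  have hper : ∀ j : ℚ, ∃ τ : InfinitePlace ℚ → UpperHalfPlane, IsPeriod j τ := by
    intro j
    choose τ hτ using fun w : InfinitePlace ℚ => Pool.Agent.Y729.FW.j_surj (w.embedding j)
    exact ⟨τ, fun w => hτ w⟩
  choose T hT using hper
  obtain ⟨M, hM⟩ := (hfin.image (fun j => faltings j (T j))).bddAbove
  have hl : 0 ≤ Real.log 62208 := Real.log_nonneg (by norm_num)
  obtain ⟨a, b, hΔ, ha, hb, hab, hF⟩ := Pool.Agent.Helper80.NE.dense S α β α' β' ε hε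
    (Real.log 62208 + max C M)
  have hc := one_le_cond (curve a b)
  have hN1 := hN (curve a b) hΔ
  have hlogN : Real.log (N (curve a b)) ≤ Real.log 62208 + Real.log (cond (curve a b)) := by
    rw [← Real.log_mul (by norm_num) (by linarith)]
    exact Real.log_le_log (by linarith) hN1.2
  have hlogN0 : 0 ≤ Real.log (N (curve a b)) := Real.log_nonneg (by linarith)
  have hall : ∀ τ : InfinitePlace ℚ → UpperHalfPlane,
      IsPeriod ((curve a b).c₄ ^ 3 / (curve a b).Δ) τ →
      1 / 2 * Real.log (N (curve a b)) + max C M < faltings ((curve a b).c₄ ^ 3 / (curve a b).Δ) τ := by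
    intro τ hτ
    have h1 : 1 / 2 * Real.log (cond (curve a b)) + (Real.log 62208 + max C M) <
      faltings ((curve a b).c₄ ^ 3 / (curve a b).Δ) τ := hF τ hτ
    linarith
  have hmem : faltings ((curve a b).c₄ ^ 3 / (curve a b).Δ) (T ((curve a b).c₄ ^ 3 / (curve a b).Δ))
      ≤ M := by
    apply hM
    refine ⟨(curve a b).c₄ ^ 3 / (curve a b).Δ, ?_, rfl⟩
    refine ⟨a, b, hΔ, rfl, ha, hb, hab, fun τ hτ => ?_⟩
    have := hall τ hτ
    have h3 := le_max_left C M
    linarith
  have h2 := hall _ (hT _)
  have h3 := le_max_right C M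
  linarith

end Pool.Agent.Results.MP_c59389_nt.NearEveryCurve
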