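import Pool.Agent.Helper53.WP.Main

/-!
# Frey's inequality with Frey's own slope for almost all plane curves in skew boxes

Frey's conjecture: `h_F(A) ≤ (g / 2 + ε) log N_A + c(ε, g)` for all abelian varieties `A` over `ℚ` of dimension
`g`; `h_F` is the stable Faltings height and `N_A` is the conductor.

Let `D ≥ 3` and `g = (D - 1) (D - 2) / 2`. We consider ALL smooth projective plane curves of degree `D`, given
by affine equations `f(x, y) = ∑_{i + j ≤ D} c_{ij} x ^ i y ^ j = 0` with integer coefficients `c : Idx D → ℤ`
(`px p`, `py p` are the exponents `i`, `j` of `p : Idx D`). For `D = 4` these are all curves of genus `3` which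
are not hyperelliptic. For integers `A, X, Y ≥ 1` let `coefBox D A X Y` be the set of the `f` such that all
coefficients of `f(X x, Y y)` are at most `A` in absolute value, that is `|c_{ij}| ≤ A / (X ^ i Y ^ j)`. (These
are all boxes in which the coefficients can be ordered with the help of a diagonal matrix in `GL₃(ℝ)`. For
`X = Y = 1` they are the usual boxes, and for `A = X ^ D = Y ^ D` the coefficients are ordered by their weights
`D - i - j`.)

Two explicit numbers are attached to `f`:

* `period c`, the integral over `ℂ ^ g` of the sum over all `y` with `f(x_k, y_k) = 0` of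
  `|det (x_k ^ i y_k ^ j)| ^ 2 / ∏_k |f_y(x_k, y_k)| ^ 2`, where `k` and `(i, j)` run through the exponents with
  `i + j ≤ D - 3`. Up to a constant which depends only on `D` it is the square of the norm of the differential
  form `∧_{i + j ≤ D - 3} x ^ i y ^ j dx / f_y` on the Jacobian of the curve. `HeightLe c h` says that
  `-(1 / 2) log (period c) ≤ h`.
* `nodeProd c`, the product of the odd primes `p` such that the reduction of the projective curve modulo `p` has
  exactly one singular point, which is a node (`Node c p`).

Let `w ≤ 2 / D` and `κ > g (1 - D w / 3)`. We prove, without hypotheses, that there are a `δ > 0` and a `C` such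
that for all boxes with `X Y ≥ A ^ w` all `f` in the box but a proportion `C L ^ (-δ)` define a smooth curve and
satisfy

`-(1 / 2) log (period c) ≤ κ log (nodeProd c) + c₁`,

where `L` is the size of the smallest coefficient, `L = min (A / X ^ D, A / Y ^ D)`. Consequently, for these `f`,
Frey's inequality with the slope `κ`

`h_F(J) ≤ κ log N_J + (1 / 2) log d + c₁ + c₀(D)`

is true for ALL abelian varieties `J` over `ℚ` which over an algebraic closure of `ℚ` are isogenous to the
Jacobian of the curve, with an isogeny of degree `d`. The constant `c₁` is arbitrary. In particular: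

* for `w = 3 / (2 D)`, that is in all boxes with `X Y ≥ A ^ (3 / (2 D))`, this is true with every slope
  `κ > g / 2`, as Frey conjectures;
* if `w` tends to `2 / D` (the coefficients are ordered nearly by weights), the slope can be any `κ > g / 3`;
* for `w = 0`, in all boxes, it is true for every slope `κ > g` (for `X = Y = 1` this case is in the library,
  over number fields, `MP_6babc4_nt.PlaneCurves`).

The translation uses two standard facts (`IsTheory`) for `f` which define a smooth curve (`Smooth`):

* `height`. `h_F` of the Jacobian is at most `-(1 / 2) log (period c) + c₀`: for all models `W`, over the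
  integers `O` of a local field, the map from `Pic⁰` of the plane model to the Néron model shows that the
  differentials of the Néron model are contained in `H⁰(W, ω)`, the lattice of the `x ^ i y ^ j dx / f_y`. An
  isogeny of degree `d` changes the stable height by at most `(1 / 2) log d` (Faltings).
* `bad`. At a prime `p` with `Node c p` the reduction of the plane curve is irreducible with one node, the toric
  rank of the Jacobian is one, no abelian variety which is geometrically isogenous to it has good reduction at
  `p`, and `p` divides the conductor.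
-/

set_option autoImplicit false

open Pool.Agent.K4H5.PC Pool.Agent.Helper53.WP

namespace Pool.Agent.Results.MP_c59389_nt.WeightedPlaneCurves

/-- The abelian varieties `A : AV` over `ℚ` with their stable Faltings heights `hF A` and conductors `N A`.
`Isog c d A` says that over an algebraic closure of `ℚ` there is an isogeny of degree `d` between `A` and the
Jacobian of the plane curve with the coefficients `c`. See the explanations above. -/
structure IsTheory (D : ℕ) {AV : Type} (hF : AV → ℝ) (N : AV → ℕ)
    (Isog : (Idx D → ℤ) → ℕ → AV → Prop) (c₀ : ℝ) : Prop where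
  pos : ∀ A, 0 < N A
  height : ∀ c d A h, Smooth (fun p => ((c p : ℤ) : ℂ)) → Isog c d A → HeightLe c h →
    hF A ≤ h + 1 / 2 * Real.log d + c₀
  bad : ∀ c d A, Smooth (fun p => ((c p : ℤ) : ℂ)) → Isog c d A → ∀ p, Node c p → p ∣ N A

/-- **Frey's inequality for almost all plane curves.** See the explanations above. -/
theorem result {D g : ℕ} (hD : 3 ≤ D) (hg : 2 * g = (D - 1) * (D - 2)) (w κ c₁ : ℝ) (hw : w ≤ 2 / D)
    (hκ : (g : ℝ) * (1 - D * w / 3) < κ) :
    ∃ δ : ℝ, 0 < δ ∧ ∃ C : ℝ, ∀ A X Y L : ℕ, 1 ≤ L → 1 ≤ X → 1 ≤ Y →
      L * X ^ D ≤ A → L * Y ^ D ≤ A → (A : ℝ) ^ w ≤ X * Y → ∃ Exc : Finset (Idx D → ℤ),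
        (Exc.card : ℝ) ≤ C * (L : ℝ) ^ (-δ) * (coefBox D A X Y).card ∧
        ∀ c ∈ coefBox D A X Y, c ∉ Exc →
          Smooth (fun p => ((c p : ℤ) : ℂ)) ∧
          -- the explicit inequality
          HeightLe c (κ * Real.log (nodeProd c) + c₁) ∧
          -- Frey's inequality
          ∀ {AV : Type} {hF : AV → ℝ} {N : AV → ℕ} {Isog : (Idx D → ℤ) → ℕ → AV → Prop} {c₀ : ℝ},
            IsTheory D hF N Isog c₀ → ∀ d J, Isog c d J →
              hF J ≤ κ * Real.log (N J) + 1 / 2 * Real.log d + (c₁ + c₀) := by
  obtain ⟨m, rfl⟩ : ∃ m, D = m + 2 := ⟨D - 2, by omega⟩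
  have hcard : Fintype.card (Jdx (m + 1 + 1)) = g := by
    have h1 := card_jdx m
    simp only [Nat.add_sub_cancel] at hg
    have h3 : m + 2 - 1 = m + 1 := rfl
    rw [h3] at hg
    have h2 : Fintype.card (Jdx (m + 2)) = g := by omega
    exact h2
  have hw' : w ≤ 2 / (((m + 1 : ℕ) : ℝ) + 1) := by
    refine hw.trans (le_of_eq ?_)
    push_cast
    congr 1
    ring
  have hκ' : (Fintype.card (Jdx (m + 1 + 1)) : ℝ) * (1 - (((m + 1 : ℕ) : ℝ) + 1) * w / 3) < κ := by
    rw [hcard]
    refine lt_of_le_of_lt (le_of_eq ?_) hκ
    push_cast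
    ring
  have hκ0 : 0 < κ := by
    refine lt_of_le_of_lt ?_ hκ
    have h1 : (0 : ℝ) < ((m + 2 : ℕ) : ℝ) := by positivity
    rw [le_div_iff₀ h1] at hw
    have h2 : (0 : ℝ) ≤ 1 - ((m + 2 : ℕ) : ℝ) * w / 3 := by linarith
    positivity
  obtain ⟨δ, hδ, C, hC⟩ := main (n := m + 1) (by omega) w κ c₁ hw' hκ'
  refine ⟨δ, hδ, C, fun A X Y L hL hX hY hLX hLY hXY => ?_⟩
  obtain ⟨E, hE, h⟩ := hC A X Y L hL hX hY hLX hLY hXY
  refine ⟨E, hE, fun c hc hcE => ?_⟩
  obtain ⟨h1, h2, h3⟩ := h c hc hcE
  have hinj : Function.Injective (Int.castRingHom ℂ) := Int.cast_injective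
  have hs : Smooth (fun p => ((c p : ℤ) : ℂ)) := by
    have k1 : mm (fun p => Int.castRingHom ℂ (c p)) ≠ 0 := by
      rw [← mm_map, Ne, map_eq_zero_iff _ hinj]
      exact h1
    have k2 := smooth_of (by omega : 1 ≤ m + 1) _ k1 0 (by
      rw [sh_zero, ← dP_map, Ne, map_eq_zero_iff _ hinj]
      exact h2)
    rw [sh_zero] at k2
    exact k2
  refine ⟨hs, h3, fun {AV hF N Isog c₀} hT d J hJ => ?_⟩
  have hfin : {p | Node c p}.Finite := by
    have k := node_finite (by omega : 1 ≤ m + 1) c h1 0 (by rw [sh_zero]; exact h2)
    rwa [sh_zero] at k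
  have h4 := hT.height c d J _ hs hJ h3
  have h5 := Nat.le_of_dvd (hT.pos J) (nodeProd_dvd hfin (hT.bad c d J hs hJ))
  have h6 : Real.log (nodeProd c) ≤ Real.log (N J) := by
    refine Real.log_le_log ?_ (by exact_mod_cast h5)
    exact_mod_cast nodeProd_pos hfin
  have h7 := mul_le_mul_of_nonneg_left h6 hκ0.le
  linarith

end Pool.Agent.Results.MP_c59389_nt.WeightedPlaneCurves
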